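import Mathlib

/-!
# No bound on the number of jumps needed to enlarge a configuration

There is no function `f` such that every enlargeable configuration `P` of `N` pieces satisfies
`J(P) ≤ f(N)`; three pieces on a line already have `J(P)` arbitrarily large.
-/

namespace Pool.Agent.Results.MP_59f6dc_co.NoBoundOnJumps

open Finset

section Defs

variable {N d : ℕ}

/-- Piece `i` jumps over piece `j`. -/
noncomputable def jump (P : Fin N → EuclideanSpace ℝ (Fin d)) (i j : Fin N) :
    Fin N → EuclideanSpace ℝ (Fin d) := Function.update P i ((2 : ℝ) • P j - P i)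

/-- `Q` arises from `P` by `k` legal jumps. -/
inductive Jumps (P : Fin N → EuclideanSpace ℝ (Fin d)) :
    ℕ → (Fin N → EuclideanSpace ℝ (Fin d)) → Prop
  | refl : Jumps P 0 P
  | step {k : ℕ} {Q : Fin N → EuclideanSpace ℝ (Fin d)} (i j : Fin N) : i ≠ j → Jumps P k Q →
      Jumps P (k + 1) (jump Q i j)

/-- `Q` is similar to `P` (pieces are not distinguished) but larger. -/
def SimilarLarger (P Q : Fin N → EuclideanSpace ℝ (Fin d)) : Prop :=
  ∃ (c : ℝ) (R : EuclideanSpace ℝ (Fin d) ≃ₗᵢ[ℝ] EuclideanSpace ℝ (Fin d))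
    (t : EuclideanSpace ℝ (Fin d)) (π : Equiv.Perm (Fin N)),
    1 < c ∧ ∀ i, Q (π i) = c • R (P i) + t

/-- `P` is enlargeable. -/
def Enlargeable (P : Fin N → EuclideanSpace ℝ (Fin d)) : Prop :=
  ∃ k Q, Jumps P k Q ∧ SimilarLarger P Q

/-- The least number of jumps that enlarges `P`. -/
noncomputable def J (P : Fin N → EuclideanSpace ℝ (Fin d)) : ℕ :=
  sInf {k | ∃ Q, Jumps P k Q ∧ SimilarLarger P Q}

end Defs

/-- The point of the line with coordinate `x`. -/
noncomputable def pt (x : ℝ) : EuclideanSpace ℝ (Fin 1) := EuclideanSpace.single 0 x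

lemma pt_zero (x : ℝ) : pt x 0 = x := by simp [pt]

lemma ext1 {v w : EuclideanSpace ℝ (Fin 1)} (h : v 0 = w 0) : v = w := by
  ext i
  rw [Subsingleton.elim i 0]
  exact h

/-- The quadratic unit `m + √(m² + 1)`. -/
noncomputable def th (m : ℕ) : ℝ := m + √((m ^ 2 + 1 : ℕ) : ℝ)

lemma th_sq (m : ℕ) : th m ^ 2 = 2 * m * th m + 1 := by
  have h : √((m ^ 2 + 1 : ℕ) : ℝ) ^ 2 = ((m ^ 2 + 1 : ℕ) : ℝ) := Real.sq_sqrt (by positivity)
  unfold th
  push_cast at h ⊢
  nlinarith

lemma th_irr (m : ℕ) (hm : 1 ≤ m) : Irrational (th m) := by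
  unfold th
  apply Irrational.natCast_add
  rw [irrational_sqrt_natCast_iff]
  rintro ⟨r, hr⟩
  have h1 : m < r := by nlinarith
  have h2 : r < m + 1 := by nlinarith
  omega

lemma th_gt (m : ℕ) (hm : 1 ≤ m) : 1 < th m := by
  have h : 0 < √((m ^ 2 + 1 : ℕ) : ℝ) := Real.sqrt_pos.mpr (by positivity)
  have h1 : (1 : ℝ) ≤ m := by exact_mod_cast hm
  unfold th
  linarith

/-- Coefficients with respect to `1, θ` are unique. -/
lemma coeff_eq {θ : ℝ} (h : Irrational θ) {a b a' b' : ℤ} (he : (a : ℝ) + b * θ = a' + b' * θ) :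
    a = a' ∧ b = b' := by
  by_cases hb : b = b'
  · subst hb
    refine ⟨?_, rfl⟩
    have : (a : ℝ) = a' := by linarith
    exact_mod_cast this
  · exfalso
    apply h
    refine ⟨((a' - a : ℤ) : ℚ) / ((b - b' : ℤ) : ℚ), ?_⟩
    have hb' : ((b - b' : ℤ) : ℝ) ≠ 0 := by
      exact_mod_cast sub_ne_zero.mpr hb
    push_cast at hb' ⊢
    rw [div_eq_iff hb']
    linarith

/-- The configuration `0, 1, 1 + θ`. -/
noncomputable def P (m : ℕ) : Fin 3 → EuclideanSpace ℝ (Fin 1) :=
  ![pt 0, pt 1, pt (1 + th m)]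

/-- The configuration after `2 j` jumps. -/
noncomputable def Pj (m j : ℕ) : Fin 3 → EuclideanSpace ℝ (Fin 1) :=
  ![pt 0, pt (1 + 2 * j * th m), pt (1 + (2 * j + 1) * th m)]

lemma jumps_Pj (m j : ℕ) : Jumps (P m) (2 * j) (Pj m j) := by
  induction j with
  | zero =>
    have : Pj m 0 = P m := by
      simp [Pj, P]
    rw [this]
    exact Jumps.refl
  | succ j ih =>
    have h1 := Jumps.step 2 1 (by decide) (Jumps.step 1 2 (by decide) ih)
    have h2 : jump (jump (Pj m j) 1 2) 2 1 = Pj m (j + 1) := by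
      funext i
      apply ext1
      fin_cases i
      · simp [jump, Pj, Function.update_apply]
      · simp [jump, Pj, Function.update_apply, pt_zero]
        ring
      · simp [jump, Pj, Function.update_apply, pt_zero]
        ring
    rw [h2] at h1
    exact h1

lemma enlarge (m : ℕ) (hm : 1 ≤ m) : SimilarLarger (P m) (Pj m m) := by
  refine ⟨th m, LinearIsometryEquiv.neg ℝ, pt (th m ^ 2 + th m), Equiv.swap 0 2, th_gt m hm, ?_⟩
  intro i
  apply ext1
  have h := th_sq m
  fin_cases i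
  · have : (Equiv.swap (0 : Fin 3) 2) 0 = 2 := by decide
    simp [this, Pj, P, pt_zero]
    linarith
  · have : (Equiv.swap (0 : Fin 3) 2) 1 = 1 := by decide
    simp [this, Pj, P, pt_zero]
    linarith
  · have : (Equiv.swap (0 : Fin 3) 2) 2 = 0 := by decide
    simp [this, Pj, P, pt_zero]
    ring

lemma isom1 (R : EuclideanSpace ℝ (Fin 1) ≃ₗᵢ[ℝ] EuclideanSpace ℝ (Fin 1)) :
    ∃ r : ℝ, |r| = 1 ∧ ∀ v, (R v) 0 = r * v 0 := by
  refine ⟨(R (pt 1)) 0, ?_, fun v => ?_⟩
  · have h1 : ‖R (pt 1)‖ = ‖pt 1‖ := R.norm_map _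
    rw [EuclideanSpace.norm_eq, EuclideanSpace.norm_eq] at h1
    simpa [pt_zero, Real.sqrt_sq_eq_abs] using h1
  · have h1 : v = v 0 • pt 1 := by
      apply ext1
      simp [pt_zero]
    rw [h1, map_smul]
    simp [pt_zero]
    ring

/-- What is preserved by jumps. -/
lemma invariant (m : ℕ) {k : ℕ} {Q : Fin 3 → EuclideanSpace ℝ (Fin 1)} (h : Jumps (P m) k Q) :
    ∃ a b x : Fin 3 → ℤ, (∀ i, Q i 0 = a i + b i * th m) ∧ (∀ i, |a i| ≤ 3 ^ k) ∧
      (∀ i, |b i| ≤ 3 ^ k) ∧ ∑ i, x i = 0 ∧ ∑ i, (x i : ℝ) * Q i 0 = 1 := by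
  induction h with
  | refl =>
    refine ⟨![0, 1, 1], ![0, 0, 1], ![-1, 1, 0], ?_, ?_, ?_, ?_, ?_⟩
    · intro i
      fin_cases i <;> simp [P, pt_zero]
    · intro i
      fin_cases i <;> simp
    · intro i
      fin_cases i <;> simp
    · decide
    · simp [Fin.sum_univ_three, P, pt_zero]
  | @step k Q i j hij _ ih =>
    obtain ⟨a, b, x, h1, h2, h3, h4, h5⟩ := ih
    refine ⟨Function.update a i (2 * a j - a i), Function.update b i (2 * b j - b i),
      Function.update (Function.update x j (x j + 2 * x i)) i (-x i), ?_, ?_, ?_, ?_, ?_⟩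
    · intro l
      by_cases hl : l = i
      · subst hl
        simp only [jump, Function.update_self, PiLp.sub_apply, PiLp.smul_apply, smul_eq_mul, h1]
        push_cast
        ring
      · simp only [jump, Function.update_of_ne hl, h1]
    · intro l
      have e1 := abs_le.mp (h2 i)
      have e2 := abs_le.mp (h2 j)
      have e3 := abs_le.mp (h2 l)
      rw [pow_succ, abs_le]
      by_cases hl : l = i
      · subst hl
        rw [Function.update_self]
        constructor <;> omega
      · rw [Function.update_of_ne hl]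
        constructor <;> omega
    · intro l
      have e1 := abs_le.mp (h3 i)
      have e2 := abs_le.mp (h3 j)
      have e3 := abs_le.mp (h3 l)
      rw [pow_succ, abs_le]
      by_cases hl : l = i
      · subst hl
        rw [Function.update_self]
        constructor <;> omega
      · rw [Function.update_of_ne hl]
        constructor <;> omega
    · have e1 : ∀ y : Fin 3 → ℤ, ∑ l, y l = y i + (y j + ∑ l ∈ (univ.erase i).erase j, y l) := by
        intro y
        rw [add_sum_erase _ y (mem_erase.mpr ⟨hij.symm, mem_univ j⟩),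
          add_sum_erase _ y (mem_univ i)]
      have e2 : ∑ l ∈ (univ.erase i).erase j,
          Function.update (Function.update x j (x j + 2 * x i)) i (-x i) l =
          ∑ l ∈ (univ.erase i).erase j, x l := by
        apply sum_congr rfl
        intro l hl
        have hl1 : l ≠ j := ne_of_mem_erase hl
        have hl2 : l ≠ i := ne_of_mem_erase (mem_of_mem_erase hl)
        rw [Function.update_of_ne hl2, Function.update_of_ne hl1]
      rw [e1, e2, Function.update_self, Function.update_of_ne hij.symm, Function.update_self]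
      rw [e1 x] at h4
      linarith
    · have e1 : ∀ y : Fin 3 → ℝ, ∑ l, y l = y i + (y j + ∑ l ∈ (univ.erase i).erase j, y l) := by
        intro y
        rw [add_sum_erase _ y (mem_erase.mpr ⟨hij.symm, mem_univ j⟩),
          add_sum_erase _ y (mem_univ i)]
      have e2 : ∑ l ∈ (univ.erase i).erase j,
          ((Function.update (Function.update x j (x j + 2 * x i)) i (-x i) l : ℤ) : ℝ) *
            (jump Q i j l) 0 =
          ∑ l ∈ (univ.erase i).erase j, (x l : ℝ) * Q l 0 := by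
        apply sum_congr rfl
        intro l hl
        have hl1 : l ≠ j := ne_of_mem_erase hl
        have hl2 : l ≠ i := ne_of_mem_erase (mem_of_mem_erase hl)
        rw [Function.update_of_ne hl2, Function.update_of_ne hl1, jump, Function.update_of_ne hl2]
      rw [e1, e2]
      rw [e1] at h5
      simp only [jump, Function.update_self, Function.update_of_ne hij.symm, PiLp.sub_apply,
        PiLp.smul_apply, smul_eq_mul]
      push_cast
      linarith

/-- Enlarging `P m` takes many jumps. -/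
lemma lower (m : ℕ) (hm : 1 ≤ m) {k : ℕ} {Q : Fin 3 → EuclideanSpace ℝ (Fin 1)}
    (h : Jumps (P m) k Q) (hs : SimilarLarger (P m) Q) : (m : ℤ) ≤ 2 * 3 ^ k := by
  obtain ⟨a, b, x, h1, h2, h3, h4, h5⟩ := invariant m h
  obtain ⟨c, R, t, π, hc, hQ⟩ := hs
  obtain ⟨r, hr, hR⟩ := isom1 R
  have hirr := th_irr m hm
  have hQ' : ∀ i, Q (π i) 0 = c * r * P m i 0 + t 0 := by
    intro i
    rw [hQ i]
    simp only [PiLp.add_apply, PiLp.smul_apply, smul_eq_mul, hR]
    ring
  have p0 : P m 0 0 = 0 := by simp [P, pt_zero]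
  have p1 : P m 1 0 = 1 := by simp [P, pt_zero]
  have p2 : P m 2 0 = 1 + th m := by simp [P, pt_zero]
  have q0 := hQ' 0
  have q1 := hQ' 1
  have q2 := hQ' 2
  rw [p0, h1] at q0
  rw [p1, h1] at q1
  rw [p2, h1] at q2
  -- the two relations
  set u := a (π 1) - a (π 0) with hu
  set v := b (π 1) - b (π 0) with hv
  set u' := a (π 2) - a (π 1) with hu'
  set v' := b (π 2) - b (π 1) with hv'
  have r1 : c * r = u + v * th m := by
    rw [hu, hv]; push_cast; linarith
  have r2 : c * r * th m = u' + v' * th m := by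
    rw [hu', hv']; push_cast; linarith
  have r3 : (v : ℝ) + ((u + 2 * m * v : ℤ) : ℝ) * th m = u' + v' * th m := by
    rw [← r2, r1]
    have := th_sq m
    push_cast
    linear_combination (-(v : ℝ)) * this
  obtain ⟨r4, r5⟩ := coeff_eq hirr (by exact_mod_cast r3 : ((v : ℤ) : ℝ) +
    ((u + 2 * m * v : ℤ) : ℝ) * th m = ((u' : ℤ) : ℝ) + ((v' : ℤ) : ℝ) * th m)
  have hvne : v ≠ 0 := by
    intro hv0
    rw [hv0] at r1
    have r6 : c * r = u := by rw [r1]; push_cast; ring
    -- the module of differences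
    have e1 : ∑ i, (x (π i) : ℝ) * Q (π i) 0 = 1 := by
      rw [← h5]
      exact Equiv.sum_comp π (fun i => (x i : ℝ) * Q i 0)
    have e2 : ∑ i, x (π i) = 0 := by
      rw [← h4]
      exact Equiv.sum_comp π x
    simp only [hQ'] at e1
    rw [Fin.sum_univ_three, p0, p1, p2, r6] at e1
    rw [Fin.sum_univ_three] at e2
    have e3 : ((u * (x (π 1) + x (π 2)) : ℤ) : ℝ) + ((u * x (π 2) : ℤ) : ℝ) * th m =
        ((1 : ℤ) : ℝ) + ((0 : ℤ) : ℝ) * th m := by
      have e4 : ((x (π 0) : ℝ) + x (π 1) + x (π 2)) = 0 := by exact_mod_cast e2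
      push_cast
      linear_combination e1 - (t 0) * e4
    obtain ⟨e5, -⟩ := coeff_eq hirr e3
    have e6 : |u| = 1 := Int.isUnit_iff_abs_eq.mp (IsUnit.of_mul_eq_one _ e5)
    have e7 : |c * r| = 1 := by
      rw [r6, ← Int.cast_abs, e6]; simp
    rw [abs_mul, hr, mul_one, abs_of_pos (by linarith)] at e7
    linarith
  have b1 := abs_le.mp (h2 (π 0))
  have b2 := abs_le.mp (h2 (π 1))
  have b3 := abs_le.mp (h3 (π 1))
  have b4 := abs_le.mp (h3 (π 2))
  have b5 : |(2 * (m : ℤ)) * v| ≤ 4 * 3 ^ k := by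
    have : 2 * (m : ℤ) * v = v' - u := by linarith
    rw [this, abs_le, hv', hu]
    constructor <;> omega
  have b6 : 1 ≤ |v| := Int.one_le_abs hvne
  rw [abs_mul, abs_of_nonneg (by positivity : (0 : ℤ) ≤ 2 * (m : ℤ))] at b5
  nlinarith

/-- **No bound in terms of the number of pieces.**  There is no function `f` such that every
enlargeable configuration of `N` pieces (in any dimension) satisfies `J(P) ≤ f(N)`; in fact for
`N = 3` and dimension 1 there are enlargeable configurations with `J(P)` arbitrarily large. -/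
theorem result : (¬ ∃ f : ℕ → ℕ, ∀ (N d : ℕ) (P : Fin N → EuclideanSpace ℝ (Fin d)),
      Enlargeable P → J P ≤ f N) ∧
    ∀ n : ℕ, ∃ P : Fin 3 → EuclideanSpace ℝ (Fin 1), Enlargeable P ∧ n < J P := by
  have main : ∀ n : ℕ, ∃ P : Fin 3 → EuclideanSpace ℝ (Fin 1), Enlargeable P ∧ n < J P := by
    intro n
    have hm : 1 ≤ 2 * 3 ^ n + 1 := by omega
    have hen : Enlargeable (P (2 * 3 ^ n + 1)) := ⟨_, _, jumps_Pj _ _, enlarge _ hm⟩
    refine ⟨P (2 * 3 ^ n + 1), hen, ?_⟩
    obtain ⟨Q, hQ1, hQ2⟩ : J (P (2 * 3 ^ n + 1)) ∈ {k | ∃ Q, Jumps (P (2 * 3 ^ n + 1)) k Q ∧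
        SimilarLarger (P (2 * 3 ^ n + 1)) Q} := by
      apply Nat.sInf_mem
      obtain ⟨k, Q, hk⟩ := hen
      exact ⟨k, Q, hk⟩
    have h1 := lower _ hm hQ1 hQ2
    by_contra hlt
    push Not at hlt
    have h2 : (3 : ℤ) ^ (J (P (2 * 3 ^ n + 1))) ≤ 3 ^ n :=
      pow_le_pow_right₀ (by norm_num) hlt
    push_cast at h1
    omega
  refine ⟨?_, main⟩
  rintro ⟨f, hf⟩
  obtain ⟨P, hP1, hP2⟩ := main (f 3)
  have := hf 3 1 P hP1
  omega

end Pool.Agent.Results.MP_59f6dc_co.NoBoundOnJumps
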